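import Pool.Agent.H77.F1.Regimes

/-!
The middle regime and the summary.
-/

namespace Pool.Agent.H77.F1

open Pool.Agent.H89.Arr

/-- Region `2 G² ≥ F + 3 G`, `G + 24 q³ < F`. -/
lemma two {F G q : ℕ} (hq : 24 ≤ q) (hF1 : (q ^ 2) ^ 2 ≤ F)
    (hF2 : F < ((q + 1) ^ 2) ^ 2) (hG : F + 3 * G ≤ 2 * G ^ 2) (hGF : G + 24 * q ^ 3 < F) :
    Realised F (F + 1 + G) := by
  obtain ⟨Q, hQ⟩ : ∃ Q, Q = (q + 1) ^ 2 := ⟨_, rfl⟩
  rw [← hQ] at hF2
  have hQ1 : 625 ≤ Q := by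
    rw [hQ]
    have : 25 ^ 2 ≤ (q + 1) ^ 2 := Nat.pow_le_pow_left (by omega) 2
    omega
  have hqq : 24 * q ≤ q ^ 2 := by
    rw [pow_two]; exact Nat.mul_le_mul_right q hq
  -- lower bound for `G`
  have hGq : 7 * q ^ 2 ≤ 10 * G := by
    by_contra hc
    have hc' : 10 * G ≤ 7 * q ^ 2 := by omega
    have h1 : (10 * G) * (10 * G) ≤ (7 * q ^ 2) * (7 * q ^ 2) := Nat.mul_le_mul hc' hc'
    have h2 : (10 * G) * (10 * G) = 100 * G ^ 2 := by ring
    have h3 : (7 * q ^ 2) * (7 * q ^ 2) = 49 * (q ^ 2) ^ 2 := by ring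
    have h4 : 0 < G ∨ G = 0 := by omega
    have h5 : 24 ^ 2 ≤ q ^ 2 := Nat.pow_le_pow_left hq 2
    have h6 : q ^ 2 ≤ (q ^ 2) ^ 2 := by
      rw [pow_two (q ^ 2)]; exact Nat.le_mul_self _
    omega
  obtain ⟨N, hN⟩ : ∃ N, N + 4 * q = G + 2 := ⟨G + 2 - 4 * q, by omega⟩
  -- sigma
  set sg := Nat.sqrt (8 * N) + 1 with hsg
  have hs1 : 8 * N < sg * sg := Nat.lt_succ_sqrt (8 * N)
  have hs2 : (sg - 1) * (sg - 1) ≤ 8 * N := by
    rw [hsg, Nat.add_sub_cancel]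
    exact Nat.sqrt_le (8 * N)
  obtain ⟨r, hr⟩ : ∃ r, sg = r + 1 := ⟨sg - 1, by omega⟩
  clear_value sg
  subst hr
  rw [Nat.add_sub_cancel] at hs2
  clear hsg
  -- rho
  obtain ⟨rho, hrho⟩ : ∃ rho, (r + 1) * (r + 1) = 8 * N + rho :=
    ⟨(r + 1) * (r + 1) - 8 * N, by omega⟩
  have hrr : (r + 1) * (r + 1) = r * r + 2 * r + 1 := by ring
  have hrho2 : rho ≤ 2 * r + 1 := by omega
  set w := Nat.sqrt rho with hw
  have hw1 : w * w ≤ rho := Nat.sqrt_le rho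
  have hw2 : rho < (w + 1) * (w + 1) := Nat.lt_succ_sqrt rho
  have hww : (w + 1) * (w + 1) = w * w + 2 * w + 1 := by ring
  clear_value w
  clear hw
  -- bounds
  have hr4 : 100 * r < 283 * Q := by
    by_contra hc
    have hc' : 283 * Q ≤ 100 * r := by omega
    have h10 : (283 * Q) * (283 * Q) ≤ (100 * r) * (100 * r) := Nat.mul_le_mul hc' hc'
    have h11 : (283 * Q) * (283 * Q) = 80089 * Q ^ 2 := by ring
    have h12 : (100 * r) * (100 * r) = 10000 * (r * r) := by ring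
    omega
  have hw3 : 5 * w ≤ 12 * (q + 1) := by
    by_contra hc
    have hc' : 12 * (q + 1) ≤ 5 * w := by omega
    have h10 : (12 * (q + 1)) * (12 * (q + 1)) ≤ (5 * w) * (5 * w) := Nat.mul_le_mul hc' hc'
    have h11 : (12 * (q + 1)) * (12 * (q + 1)) = 144 * Q := by rw [hQ]; ring
    have h12 : (5 * w) * (5 * w) = 25 * (w * w) := by ring
    omega
  have hrq : 2 * q ≤ r := by
    by_contra hc
    have hc' : r + 1 ≤ 2 * q := by omega
    have h10 : (r + 1) * (r + 1) ≤ (2 * q) * (2 * q) := Nat.mul_le_mul hc' hc'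
    have h11 : (2 * q) * (2 * q) = 4 * q ^ 2 := by ring
    omega
  have hwr : w + 7 ≤ r := by
    by_contra hc
    have hc' : r ≤ w + 6 := by omega
    obtain ⟨j, rfl⟩ : ∃ j, r = j + 6 := ⟨r - 6, by omega⟩
    have h10 : j * j ≤ w * w := Nat.mul_le_mul (by omega) (by omega)
    have h11 : 40 * j ≤ j * j := Nat.mul_le_mul_right j (by omega)
    omega
  -- delta
  obtain ⟨dl, t, hdl, ht⟩ : ∃ dl t : ℕ, dl ≤ 3 ∧ 4 * t = r + 2 + w + dl :=
    ⟨(4 - (r + 2 + w) % 4) % 4, (r + 2 + w + (4 - (r + 2 + w) % 4) % 4) / 4, by omega, by omega⟩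
  obtain ⟨k, hk⟩ : ∃ k, k + (w + 1 + dl) = 2 * t := ⟨2 * t - (w + 1 + dl), by omega⟩
  have hk2 : 2 ≤ k := by omega
  have hkr : 2 * t + k = r + 1 := by omega
  have h2k : 2 * k + w + dl = r := by omega
  have hkt : 8 * (k * t) + (w + 1 + dl) * (w + 1 + dl) = (r + 1) * (r + 1) := by
    rw [← hkr]
    have h1 : 2 * t = k + (w + 1 + dl) := hk.symm
    have h2 : 8 * (k * t) = 4 * (k * (2 * t)) := by ring
    rw [h2, h1]
    ring
  have hktN : k * t < N := by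
    have : (w + 1) * (w + 1) ≤ (w + 1 + dl) * (w + 1 + dl) :=
      Nat.mul_le_mul (by omega) (by omega)
    omega
  have hktN2 : N ≤ k * t + w + 2 := by
    have h1 : (w + 1 + dl) * (w + 1 + dl) ≤ (w + 4) * (w + 4) :=
      Nat.mul_le_mul (by omega) (by omega)
    have h2 : (w + 4) * (w + 4) = w * w + 8 * w + 16 := by ring
    omega
  -- base
  have hbase := Rz_base (m := 2 * t - 1) (k := k) (by rw [Nat.odd_iff]; omega) hk2 (by omega)
  have hb1 : 2 * t - 1 + k = r := by omega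
  have hb2 : (2 * t - 1 - 1) / 2 = t - 1 := by omega
  rw [hb1, hb2] at hbase
  obtain ⟨t', rfl⟩ : ∃ t', t = t' + 1 := ⟨t - 1, by omega⟩
  rw [Nat.add_sub_cancel] at hbase
  have hG0 : k - 2 + k * t' + 2 = k * (t' + 1) := by
    have : k * (t' + 1) = k * t' + k := by ring
    omega
  set G0 := k - 2 + k * t' with hG0'
  set e0 := (k - 2).choose 2 with he0
  obtain ⟨L, hL⟩ : ∃ L, G0 + L = G := ⟨G - G0, by omega⟩
  have hL1 : 4 * q + 1 ≤ L := by omega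
  have hL2 : L ≤ 4 * q + w + 2 := by omega
  have hcl := choose_low k hk2
  rw [← he0] at hcl
  obtain ⟨i, E, h1, h2, h3, h4⟩ := tri_data (F + 2 * G + e0) (by omega)
  have hkk : 4 * (k * k) ≤ r * r := by
    have : (2 * k) * (2 * k) ≤ r * r := Nat.mul_le_mul (by omega) (by omega)
    have h5 : (2 * k) * (2 * k) = 4 * (k * k) := by ring
    omega
  have hi : 100 * i < 283 * Q := by
    by_contra hc
    have hc' : 283 * Q ≤ 100 * i := by omega
    have h10 : (283 * Q) * (283 * Q) ≤ (100 * i) * (100 * i) := Nat.mul_le_mul hc' hc'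
    have h11 : (283 * Q) * (283 * Q) = 80089 * Q ^ 2 := by ring
    have h12 : (100 * i) * (100 * i) = 10000 * (i * i) := by ring
    omega
  obtain ⟨b, hb⟩ : ∃ b, b = 12 * (q + 1) / 5 + 1 := ⟨_, rfl⟩
  obtain ⟨s, hs⟩ : ∃ s, s = q / 2 := ⟨_, rfl⟩
  have hb1 : 12 * (q + 1) < 5 * b := by omega
  have hb2 : 5 * b ≤ 12 * (q + 1) + 5 := by omega
  have hs1 : q ≤ 2 * s + 1 := by omega
  have hs2 : 2 * s ≤ q := by omega
  have hE : E < (b + 1).choose 2 := by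
    have h10 := choose_succ_two_double b
    have h11 : (12 * (q + 1)) * (12 * (q + 1)) ≤ (5 * b) * (5 * b) :=
      Nat.mul_le_mul hb1.le hb1.le
    have h12 : (12 * (q + 1)) * (12 * (q + 1)) = 144 * Q := by rw [hQ]; ring
    have h13 : (5 * b) * (5 * b) = 25 * (b * b) := by ring
    omega
  have hbs : b ≤ (s + 1).choose 2 := by
    have h10 := choose_succ_two_double s
    have h11 : 12 * s ≤ s * s := Nat.mul_le_mul_right s (by omega)
    omega
  have hbL : b + 3 * s ≤ L := by omega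
  -- main inequality
  have hlow : r + 1 + L ≤ i + 2 := by
    by_contra hc
    exact key_ineq (F := F) (G := G) (q := q) (r := r) (w := w) (k := k) (dl := dl) (i := i)
      (e0 := e0) (E := E) (N := N) (rho := rho) hq (by omega) hrho (by omega) hN (by omega)
      hcl h2k hdl (by rw [← hQ]; exact hr4.le) hw3 (by omega)
  have hlow2 : 2 * L + 1 ≤ i + 2 := by
    have h10 : q ^ 2 ≤ i + 2 := by
      by_contra hc
      have hc' : i + 2 ≤ q ^ 2 := by omega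
      have h11 : (i + 2) * (i + 2) ≤ q ^ 2 * q ^ 2 := Nat.mul_le_mul hc' hc'
      have h12 : (i + 2) * (i + 2) = i * i + 4 * i + 4 := by ring
      have h13 : q ^ 2 * q ^ 2 = (q ^ 2) ^ 2 := by ring
      omega
    omega
  obtain ⟨P, hP1, hP2, hP3⟩ := exists_parts hE hbs hbL
  have h23 := Rz_thick hbase P (n := i + 2) (by omega) (by omega)
  rw [hP1, hP2, hL] at h23
  exact sufficient h23 (by omega) (by omega)

/-- Summary in terms of `TriCond`. -/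
theorem main (F G : ℕ) :
    (Realised F (F + 1 + G) → TriCond F G) ∧
    (2 ≤ F → (2 * G ^ 2 ≤ F ∨ (G : ℝ) < (F : ℝ) - 24 * (F : ℝ) ^ (3 / 4 : ℝ)) → TriCond F G →
      Realised F (F + 1 + G)) ∧
    ((G : ℝ) < (F : ℝ) - 24 * (F : ℝ) ^ (3 / 4 : ℝ) → 3 * (F : ℝ) ^ (1 / 4 : ℝ) ≤ (G : ℝ) →
      Realised F (F + 1 + G)) := by
  have key : (G : ℝ) < (F : ℝ) - 24 * (F : ℝ) ^ (3 / 4 : ℝ) →
      ∃ q : ℕ, 24 ≤ q ∧ (q ^ 2) ^ 2 ≤ F ∧ F < ((q + 1) ^ 2) ^ 2 ∧ G + 24 * q ^ 3 < F ∧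
        (q : ℝ) ≤ (F : ℝ) ^ (1 / 4 : ℝ) := by
    intro h
    obtain ⟨q, hq1, hq2⟩ : ∃ q : ℕ, (q ^ 2) ^ 2 ≤ F ∧ F < ((q + 1) ^ 2) ^ 2 := by
      refine ⟨Nat.sqrt (Nat.sqrt F), ?_, ?_⟩
      · have h1 : Nat.sqrt (Nat.sqrt F) ^ 2 ≤ Nat.sqrt F := Nat.sqrt_le' _
        calc (Nat.sqrt (Nat.sqrt F) ^ 2) ^ 2 ≤ (Nat.sqrt F) ^ 2 := Nat.pow_le_pow_left h1 2
          _ ≤ F := Nat.sqrt_le' _
      · have h1 : Nat.sqrt F < (Nat.sqrt (Nat.sqrt F) + 1) ^ 2 := Nat.lt_succ_sqrt' _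
        have h2 : F < (Nat.sqrt F + 1) ^ 2 := Nat.lt_succ_sqrt' _
        calc F < (Nat.sqrt F + 1) ^ 2 := h2
          _ ≤ ((Nat.sqrt (Nat.sqrt F) + 1) ^ 2) ^ 2 := Nat.pow_le_pow_left h1 2
    have hF0 : (0 : ℝ) ≤ (F : ℝ) := Nat.cast_nonneg F
    have hG0 : (0 : ℝ) ≤ (G : ℝ) := Nat.cast_nonneg G
    have hq0 : (0 : ℝ) ≤ (q : ℝ) := Nat.cast_nonneg q
    set x : ℝ := (F : ℝ) ^ (1 / 4 : ℝ) with hx
    have hx0 : 0 ≤ x := Real.rpow_nonneg hF0 _
    have hx4 : x ^ 4 = F := by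
      rw [hx, ← Real.rpow_natCast, ← Real.rpow_mul hF0]
      norm_num
    have hx3 : (F : ℝ) ^ (3 / 4 : ℝ) = x ^ 3 := by
      rw [hx, ← Real.rpow_natCast, ← Real.rpow_mul hF0]
      norm_num
    rw [hx3] at h
    have hqx : (q : ℝ) ≤ x := by
      have h1 : (q : ℝ) ^ 4 ≤ x ^ 4 := by
        rw [hx4]
        have h2 : ((q ^ 2) ^ 2 : ℕ) = q ^ 4 := by ring
        rw [h2] at hq1
        exact_mod_cast hq1
      exact le_of_pow_le_pow_left₀ (by norm_num) hx0 h1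
    have hq3x : (q : ℝ) ^ 3 ≤ x ^ 3 := pow_le_pow_left₀ hq0 hqx 3
    have hGF : G + 24 * q ^ 3 < F := by
      have : (G : ℝ) + 24 * (q : ℝ) ^ 3 < F := by linarith
      exact_mod_cast this
    have hx24 : 24 < x := by
      by_contra hc
      have hc' : x ≤ 24 := not_lt.1 hc
      have h1 : x ^ 4 ≤ 24 * x ^ 3 := by
        have : x ^ 4 = x * x ^ 3 := by ring
        rw [this]
        exact mul_le_mul_of_nonneg_right hc' (by positivity)
      rw [hx4] at h1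
      linarith
    have hq : 24 ≤ q := by
      by_contra hc
      have hc' : q + 1 ≤ 24 := by omega
      have h1 : ((q + 1) ^ 2) ^ 2 ≤ (24 ^ 2) ^ 2 :=
        Nat.pow_le_pow_left (Nat.pow_le_pow_left hc' 2) 2
      have h2 : F < (24 ^ 2) ^ 2 := lt_of_lt_of_le hq2 h1
      have h3 : (F : ℝ) < 24 ^ 4 := by
        have : (24 ^ 2) ^ 2 = 24 ^ 4 := by norm_num
        rw [this] at h2
        exact_mod_cast h2
      have h4 : (24 : ℝ) ^ 4 ≤ x ^ 4 := pow_le_pow_left₀ (by norm_num) hx24.le 4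
      linarith
    exact ⟨q, hq, hq1, hq2, hGF, hqx⟩
  refine ⟨necessary, ?_, ?_⟩
  · intro hF h ht
    have hsm : 2 * G ^ 2 ≤ F → Realised F (F + 1 + G) := by
      intro h1
      refine small hF ?_ ht
      rcases Nat.eq_zero_or_pos G with h0 | h0
      · subst h0; simpa using (by omega : 0 < F)
      · omega
    rcases h with h | h
    · exact hsm h
    · obtain ⟨q, hq, hq1, hq2, hGF, -⟩ := key h
      by_cases hc : 2 * G ^ 2 < F + 3 * G
      · exact small hF hc ht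
      · exact two hq hq1 hq2 (by omega) hGF
  · intro h h3
    obtain ⟨q, hq, hq1, hq2, hGF, hqx⟩ := key h
    by_cases hc : 2 * G ^ 2 < F + 3 * G
    · refine one hq hq2 hc ?_
      have : (3 : ℝ) * q ≤ G := by linarith
      exact_mod_cast this
    · exact two hq hq1 hq2 (by omega) hGF

end Pool.Agent.H77.F1
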