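import Pool.Agent.H77.F1.Thick

/-!
The regimes for the realisation of `(F, F + 1 + G)`.
-/

namespace Pool.Agent.H77.F1

open Pool.Agent.H89.Arr

lemma card_le_sum (s : Multiset ℕ) (h : ∀ x ∈ s, x ≠ 0) : Multiset.card s ≤ s.sum := by
  induction s using Multiset.induction_on with
  | empty => simp
  | cons a s ih =>
    have ha : a ≠ 0 := h a (Multiset.mem_cons_self a s)
    have h1 := ih (fun x hx => h x (Multiset.mem_cons_of_mem hx))
    simp only [Multiset.card_cons, Multiset.sum_cons]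
    omega

/-- Small regime. -/
lemma small {F G : ℕ} (hF : 2 ≤ F) (hG : 2 * G ^ 2 < F + 3 * G) (h : TriCond F G) :
    Realised F (F + 1 + G) := by
  obtain ⟨n, s, hs, hn⟩ := h
  set s' := s.filter (fun x => x ≠ 0) with hs'
  have h2 : s'.sum = G := by
    have := filter_sum_map s (fun x => x) rfl
    rw [Multiset.map_id', Multiset.map_id'] at this
    rw [hs', this, hs]
  have h3 : (s'.map (fun x => x.choose 2)).sum = (s.map (fun x => x.choose 2)).sum :=
    filter_sum_map s _ rfl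
  have h4 : Multiset.card s' ≤ s'.sum := by
    apply card_le_sum
    intro x hx
    rw [hs', Multiset.mem_filter] at hx
    exact hx.2
  have h5 : 2 * n.choose 2 = n * n - n := choose_two_double n
  have h6 : 2 * G + 1 ≤ n := by
    by_contra hc
    obtain ⟨j, hj⟩ : ∃ j, 2 * G = n + j := ⟨2 * G - n, by omega⟩
    have h7 : j ≤ j * j := Nat.le_mul_self j
    have h8 : 4 * G ^ 2 = n * n + 2 * (n * j) + j * j := by
      have : 4 * G ^ 2 = (2 * G) * (2 * G) := by ring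
      rw [this, hj]
      ring
    have h9 : n ≤ n * n := Nat.le_mul_self n
    omega
  have h1 := Rz_thick Rz_zero s' (n := n) (by omega) (by omega)
  rw [h2, h3] at h1
  simp only [zero_add] at h1
  exact sufficient h1 (by omega) hF

lemma choose_succ_two_double (s : ℕ) : 2 * (s + 1).choose 2 = s * s + s := by
  rw [choose_two_double]
  have : (s + 1) * (s + 1) = s * s + s + (s + 1) := by ring
  omega

/-- Data of `exists_tri`. -/
lemma tri_data (X : ℕ) (hX : 1 ≤ X) : ∃ i E : ℕ, (i + 2).choose 2 = X + E ∧ E ≤ i ∧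
    i * i + i < 2 * X ∧ 2 * (X + E) = i * i + 3 * i + 2 := by
  obtain ⟨n, E, h1, h2, h3, h4⟩ := exists_tri X hX
  obtain ⟨i, rfl⟩ : ∃ i, n = i + 2 := ⟨n - 2, by omega⟩
  have h5 : 2 * (i + 2).choose 2 = (i + 1) * (i + 1) + (i + 1) := choose_succ_two_double (i + 1)
  have h6 : 2 * (i + 1).choose 2 = i * i + i := choose_succ_two_double i
  have h7 : i + 2 - 1 = i + 1 := by omega
  have h8 : (i + 1) * (i + 1) = i * i + 2 * i + 1 := by ring
  rw [h7] at h3
  exact ⟨i, E, h1, by omega, by omega, by omega⟩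

/-- Region `3 q ≤ G`, `2 G² < F + 3 G`: no base needed. -/
lemma one {F G q : ℕ} (hq : 24 ≤ q) (hF2 : F < ((q + 1) ^ 2) ^ 2)
    (hG : 2 * G ^ 2 < F + 3 * G) (hGq : 3 * q ≤ G) : Realised F (F + 1 + G) := by
  obtain ⟨Q, hQ⟩ : ∃ Q, Q = (q + 1) ^ 2 := ⟨_, rfl⟩
  rw [← hQ] at hF2
  have hQ1 : 625 ≤ Q := by
    rw [hQ]
    have : 25 ^ 2 ≤ (q + 1) ^ 2 := Nat.pow_le_pow_left (by omega) 2
    omega
  have hG2 : G ≤ G ^ 2 := by
    rw [pow_two]; exact Nat.le_mul_self G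
  have hF : 2 ≤ F := by nlinarith
  obtain ⟨i, E, h1, h2, h3, h4⟩ := tri_data (F + 2 * G) (by omega)
  -- upper bound for `G`
  have hGQ : 4 * G < 3 * Q := by
    by_contra hc
    have hc' : 3 * Q ≤ 4 * G := by omega
    obtain ⟨j, hj⟩ : ∃ j, 4 * G = 3 * Q + j := ⟨4 * G - 3 * Q, by omega⟩
    have h5 : 16 * G ^ 2 = 9 * Q ^ 2 + 6 * (Q * j) + j * j := by
      have : 16 * G ^ 2 = (4 * G) * (4 * G) := by ring
      rw [this, hj]
      ring
    have h6 : 625 * j ≤ Q * j := Nat.mul_le_mul_right j hQ1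
    have h7 : 625 * Q ≤ Q ^ 2 := by
      rw [pow_two]; exact Nat.mul_le_mul_right Q hQ1
    omega
  -- upper bound for `n`
  have hi : 100 * i < 143 * Q := by
    by_contra hc
    have hc' : 143 * Q ≤ 100 * i := by omega
    have h10 : (143 * Q) * (143 * Q) ≤ (100 * i) * (100 * i) := Nat.mul_le_mul hc' hc'
    have h11 : (143 * Q) * (143 * Q) = 20449 * Q ^ 2 := by ring
    have h12 : (100 * i) * (100 * i) = 10000 * (i * i) := by ring
    have h7 : 625 * Q ≤ Q ^ 2 := by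
      rw [pow_two]; exact Nat.mul_le_mul_right Q hQ1
    omega
  -- lower bound for `n`
  have hlow : 2 * G + 1 ≤ i + 2 := by
    by_contra hc
    have hc' : i + 2 ≤ 2 * G := by omega
    obtain ⟨j, hj⟩ : ∃ j, 2 * G = i + 2 + j := ⟨2 * G - (i + 2), by omega⟩
    have h8 : 4 * G ^ 2 = (i + 2) * (i + 2) + 2 * ((i + 2) * j) + j * j := by
      have : 4 * G ^ 2 = (2 * G) * (2 * G) := by ring
      rw [this, hj]
      ring
    have h9 : (i + 2) * (i + 2) = i * i + 4 * i + 4 := by ring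
    have h10 : 2 * j ≤ (i + 2) * j := Nat.mul_le_mul_right j (by omega)
    omega
  obtain ⟨b, hb⟩ : ∃ b, b = 17 * (q + 1) / 10 + 1 := ⟨_, rfl⟩
  obtain ⟨s, hs⟩ : ∃ s, s = 2 * q / 5 := ⟨_, rfl⟩
  have hb1 : 17 * (q + 1) < 10 * b := by omega
  have hb2 : 10 * b ≤ 17 * (q + 1) + 10 := by omega
  have hs1 : 2 * q < 5 * s + 5 := by omega
  have hs2 : 5 * s ≤ 2 * q := by omega
  have hE : E < (b + 1).choose 2 := by
    have h10 := choose_succ_two_double b
    have h11 : (17 * (q + 1)) * (17 * (q + 1)) ≤ (10 * b) * (10 * b) :=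
      Nat.mul_le_mul hb1.le hb1.le
    have h12 : (17 * (q + 1)) * (17 * (q + 1)) = 289 * Q := by rw [hQ]; ring
    have h13 : (10 * b) * (10 * b) = 100 * (b * b) := by ring
    omega
  have hbs : b ≤ (s + 1).choose 2 := by
    have h10 := choose_succ_two_double s
    have h11 : 9 * s ≤ s * s := Nat.mul_le_mul_right s (by omega)
    omega
  have hL : b + 3 * s ≤ G := by
    have : b + 3 * s ≤ 3 * q := by omega
    omega
  obtain ⟨P, hP1, hP2, hP3⟩ := exists_parts hE hbs hL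
  have h12 := Rz_thick Rz_zero P (n := i + 2) (by omega) (by omega)
  rw [hP1, hP2] at h12
  simp only [zero_add] at h12
  exact sufficient h12 h1 hF

lemma key_lin {F G q r w k dl i e0 E N rho : ℝ} (hr0 : 0 ≤ r) (hw0 : 0 ≤ w) (hd0 : 0 ≤ dl)
    (hE0 : 0 ≤ E) (hX : i * i + 3 * i ≤ (r + 4 * q + w) * (r + 4 * q + w) + 3 * (r + 4 * q + w))
    (hrho : (r + 1) * (r + 1) = 8 * N + rho)
    (hrho2 : rho ≤ w * w + 2 * w) (hN : N + 4 * q = G + 2)
    (h5 : 2 * (F + 2 * G + e0 + E) = i * i + 3 * i + 2) (hcl : 2 * e0 + 5 * k = k * k + 6)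
    (h2k : 2 * k + w + dl = r) (hdl : dl ≤ 3)
    (hGF : G + 24 * q ^ 3 + 1 ≤ F) :
    192 * q ^ 3 + 48 * q ≤
      r * (32 * q + 10 * w + 22) + 4 * (4 * q + w) ^ 2 + 2 * w ^ 2 + 8 * w + 21 := by
  have hk : 2 * k = r - w - dl := by linarith
  have hk2 : 4 * (k * k) = (r - w - dl) * (r - w - dl) := by
    rw [← hk]; ring
  have h1 : r * dl ≤ r * 3 := mul_le_mul_of_nonneg_left hdl hr0
  have h2 : 0 ≤ w * dl := mul_nonneg hw0 hd0
  have h3 : 0 ≤ dl * dl := mul_nonneg hd0 hd0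
  linarith

lemma key_poly {q r w : ℝ} (hq : 24 ≤ q) (hw0 : 0 ≤ w)
    (hr' : r ≤ 2.83 * (q + 1) ^ 2) (hw' : w ≤ 2.4 * (q + 1))
    (hmain : 192 * q ^ 3 + 48 * q ≤
      r * (32 * q + 10 * w + 22) + 4 * (4 * q + w) ^ 2 + 2 * w ^ 2 + 8 * w + 21) : False := by
  have hA : r * (32 * q + 10 * w + 22) ≤
      2.83 * (q + 1) ^ 2 * (32 * q + 10 * (2.4 * (q + 1)) + 22) := by
    apply mul_le_mul hr' (by linarith) (by positivity) (by positivity)
  have hB : (4 * q + w) ^ 2 ≤ (4 * q + 2.4 * (q + 1)) ^ 2 :=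
    pow_le_pow_left₀ (by positivity) (by linarith) 2
  have hC : w ^ 2 ≤ (2.4 * (q + 1)) ^ 2 := pow_le_pow_left₀ hw0 hw' 2
  obtain ⟨p, hp⟩ : ∃ p : ℝ, q = p + 24 := ⟨q - 24, by ring⟩
  have hp0 : 0 ≤ p := by linarith
  have hp2 : 0 ≤ p ^ 2 := by positivity
  have hp3 : 0 ≤ p ^ 3 := by positivity
  subst hp
  linarith

lemma key_ineq {F G q r w k dl i e0 E N rho : ℕ} (hq : 24 ≤ q)
    (hc : i ≤ r + 4 * q + w) (hrho : (r + 1) * (r + 1) = 8 * N + rho)
    (hrho2 : rho ≤ w * w + 2 * w) (hN : N + 4 * q = G + 2)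
    (h5 : 2 * (F + 2 * G + e0 + E) = i * i + 3 * i + 2) (hcl : 2 * e0 + 5 * k = k * k + 6)
    (h2k : 2 * k + w + dl = r) (hdl : dl ≤ 3) (hr : 100 * r ≤ 283 * (q + 1) ^ 2)
    (hw : 5 * w ≤ 12 * (q + 1)) (hGF : G + 24 * q ^ 3 + 1 ≤ F) : False := by
  have hX : i * i + 3 * i ≤ (r + 4 * q + w) * (r + 4 * q + w) + 3 * (r + 4 * q + w) := by
    have := Nat.mul_le_mul hc hc
    omega
  have hmain := key_lin (F := (F : ℝ)) (G := (G : ℝ)) (q := (q : ℝ)) (r := (r : ℝ)) (w := (w : ℝ))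
    (k := (k : ℝ)) (dl := (dl : ℝ)) (i := (i : ℝ)) (e0 := (e0 : ℝ)) (E := (E : ℝ)) (N := (N : ℝ))
    (rho := (rho : ℝ)) (Nat.cast_nonneg r) (Nat.cast_nonneg w) (Nat.cast_nonneg dl)
    (Nat.cast_nonneg E) (by exact_mod_cast hX) (by exact_mod_cast hrho) (by exact_mod_cast hrho2)
    (by exact_mod_cast hN) (by exact_mod_cast h5) (by exact_mod_cast hcl) (by exact_mod_cast h2k)
    (by exact_mod_cast hdl) (by exact_mod_cast hGF)
  have hr2 : (100 * r : ℝ) ≤ 283 * (q + 1) ^ 2 := by exact_mod_cast hr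
  have hw2 : (5 * w : ℝ) ≤ 12 * (q + 1) := by exact_mod_cast hw
  exact key_poly (by exact_mod_cast hq) (Nat.cast_nonneg w)
    (by linarith) (by linarith) hmain

end Pool.Agent.H77.F1
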