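import Pool.Agent.H89.Arr.Main

/-!
Adding lines through double points of a line arrangement: a double point becomes a vertex on
`x + 2` lines at the price of `x` new lines only.
-/

open scoped LinearAlgebra.Projectivization
open Projectivization

namespace Pool.Agent.H77.F1

open Pool.Agent.H89.Arr

/-- Realisable triples (number of lines, excess, second excess), with `d` double points. -/
def Rd (n g e d : ℕ) : Prop := ∃ A : Finset RP2, A.card = n ∧ gv A = g ∧ ev A = e ∧
  ∃ D : Finset RP2, D.card = d ∧ ∀ p ∈ D, mult A p = 2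

/-- A generic line brings `n` double points. -/
lemma Rd_of_generic {n g e : ℕ} (h : Rz n g e) : Rd (n + 1) g e n := by
  classical
  obtain ⟨A, h1, h2, h3⟩ := h
  obtain ⟨p, hp⟩ := exists_point A
  obtain ⟨l, hl, hpl, h⟩ := exists_line A p
  have hV : ∀ q ∈ V A, ¬ q.orthogonal l := by
    intro q hq hql
    by_cases hqp : q = p
    · subst hqp
      obtain ⟨a, ha, _, _, _, hqa, _⟩ := mem_V.1 hq
      exact hp a ha hqa
    · exact h q hq hqp hql
  have hf : (V A).filter (fun q => q.orthogonal l) = ∅ := by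
    rw [Finset.filter_eq_empty_iff]
    exact fun q hq => hV q hq
  refine ⟨insert l A, by rw [Finset.card_insert_of_notMem hl, h1], ?_, ?_,
    A.image (fun a => cross l a), ?_, ?_⟩
  · rw [gv_insert hl, hf, h2]; simp
  · rw [ev_insert hl, hf, h3]; simp
  · rw [Finset.card_image_of_injOn, h1]
    intro a ha b hb hab
    have ha' : a ∈ A := ha
    have hb' : b ∈ A := hb
    have hab' : cross l a = cross l b := hab
    by_contra hne
    have hla : l ≠ a := fun h => hl (h ▸ ha')
    have hlb : l ≠ b := fun h => hl (h ▸ hb')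
    have h4 : cross l a ∈ V A := mem_V.2 ⟨a, ha', b, hb', hne, cross_ort_right hla, by
      rw [hab']; exact cross_ort_right hlb⟩
    exact hV _ h4 (cross_ort_left hla)
  · intro q hq
    rw [Finset.mem_image] at hq
    obtain ⟨a, ha, rfl⟩ := hq
    have hla : l ≠ a := fun h => hl (h ▸ ha)
    rw [mult_insert hl, if_pos (cross_ort_left hla)]
    have h5 : ¬ 2 ≤ mult A (cross l a) := fun h6 => hV _ (mem_V_iff.2 h6) (cross_ort_left hla)
    have h6 : 0 < mult A (cross l a) := by
      unfold mult
      exact Finset.card_pos.2 ⟨a, by rw [Finset.mem_filter]; exact ⟨ha, cross_ort_right hla⟩⟩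
    omega

/-- Add a line through the vertex `p` avoiding all other vertices. -/
lemma add_line_keep (A : Finset RP2) (p : RP2) (hp : 2 ≤ mult A p) :
    ∃ A' : Finset RP2, A'.card = A.card + 1 ∧
    mult A' p = mult A p + 1 ∧ gv A' = gv A + 1 ∧
    ev A' = ev A + (mult A p - 2) ∧ ∀ q, q ≠ p → 2 ≤ mult A q → mult A' q = mult A q := by
  classical
  obtain ⟨l, hl, hpl, h⟩ := exists_line A p
  have hf : (V A).filter (fun q => q.orthogonal l) = {p} := by
    ext q
    simp only [Finset.mem_filter, Finset.mem_singleton]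
    constructor
    · rintro ⟨hq, hql⟩
      by_contra hne
      exact h q hq hne hql
    · rintro rfl
      exact ⟨mem_V_iff.2 hp, hpl⟩
  refine ⟨insert l A, Finset.card_insert_of_notMem hl, ?_, ?_, ?_, ?_⟩
  · rw [mult_insert hl, if_pos hpl]
  · rw [gv_insert hl, hf]
    simp
  · rw [ev_insert hl, hf]
    simp
  · intro q hqp hq
    rw [mult_insert hl, if_neg (h q (mem_V_iff.2 hq) hqp)]
    rfl

lemma Rd_thick {n g e d : ℕ} (h : Rd n g e (d + 1)) (x : ℕ) :
    Rd (n + x) (g + x) (e + x.choose 2) d := by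
  classical
  obtain ⟨A, h1, h2, h3, D, hD, hD2⟩ := h
  have hne : D.Nonempty := by
    rw [← Finset.card_pos]; omega
  obtain ⟨p, hp⟩ := hne
  have key : ∀ s : ℕ, ∃ A' : Finset RP2, A'.card = n + s ∧ mult A' p = s + 2 ∧
      gv A' = g + s ∧ ev A' = e + s.choose 2 ∧ ∀ q ∈ D.erase p, mult A' q = 2 := by
    intro s
    induction s with
    | zero =>
      exact ⟨A, by omega, by rw [hD2 p hp], by omega, by simp [h3],
        fun q hq => hD2 q (Finset.mem_of_mem_erase hq)⟩
    | succ s ih =>
      obtain ⟨B, hB1, hB2, hB3, hB4, hB5⟩ := ih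
      obtain ⟨A', h4, h5, h6, h7, h8⟩ := add_line_keep B p (by omega)
      refine ⟨A', by omega, by omega, by omega, ?_, ?_⟩
      · rw [h7, hB4, hB2, Nat.choose_succ_succ' s 1, Nat.choose_one_right]
        simp only [Nat.add_sub_cancel]
        ring
      · intro q hq
        have hq2 := hB5 q hq
        rw [h8 q (Finset.ne_of_mem_erase hq) (by omega), hq2]
  obtain ⟨A', h4, -, h6, h7, h8⟩ := key x
  exact ⟨A', h4, h6, h7, D.erase p, by rw [Finset.card_erase_of_mem hp, hD]; omega, h8⟩

lemma Rd_multiset (s : Multiset ℕ) : ∀ {n g e d : ℕ}, Rd n g e (d + Multiset.card s) →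
    Rd (n + s.sum) (g + s.sum) (e + (s.map (fun x => x.choose 2)).sum) d := by
  induction s using Multiset.induction_on with
  | empty => intro n g e d h; simpa using h
  | cons a s ih =>
    intro n g e d h
    rw [Multiset.card_cons, ← add_assoc] at h
    have h1 := Rd_thick h a
    have h2 := ih h1
    simp only [Multiset.map_cons, Multiset.sum_cons]
    convert h2 using 1 <;> ring

lemma Rz_of_Rd {n g e d : ℕ} (h : Rd n g e d) : Rz n g e := by
  obtain ⟨A, h1, h2, h3, -⟩ := h
  exact ⟨A, h1, h2, h3⟩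

lemma Rd_mono {n g e d d' : ℕ} (h : Rd n g e d) (hd : d' ≤ d) : Rd n g e d' := by
  obtain ⟨A, h1, h2, h3, D, h4, h5⟩ := h
  obtain ⟨D', hD', hc⟩ := Finset.exists_subset_card_eq (h4 ▸ hd : d' ≤ D.card)
  exact ⟨A, h1, h2, h3, D', hc, fun p hp => h5 p (hD' hp)⟩

/-- Thickening double points of a generic line according to a multiset. -/
lemma Rz_thick {n0 n g e : ℕ} (h : Rz n0 g e) (s : Multiset ℕ) (h1 : n0 + 1 + s.sum ≤ n)
    (h2 : Multiset.card s + 1 + s.sum ≤ n) :
    Rz n (g + s.sum) (e + (s.map (fun x => x.choose 2)).sum) := by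
  obtain ⟨n1, rfl⟩ : ∃ n1, n = n1 + 1 + s.sum := ⟨n - 1 - s.sum, by omega⟩
  have h3 := Rd_of_generic (Rz_generics h n1 (by omega))
  have h4 : Rd (n1 + 1) g e (0 + Multiset.card s) := Rd_mono h3 (by omega)
  exact Rz_of_Rd (Rd_multiset s h4)

lemma greedy (X b : ℕ) (h : X < (b + 1).choose 2) :
    ∃ a, a ≤ b ∧ a.choose 2 ≤ X ∧ X < a.choose 2 + a := by
  induction b with
  | zero => simp at h
  | succ b ih =>
    by_cases hX : X < (b + 1).choose 2
    · obtain ⟨a, h1, h2, h3⟩ := ih hX
      exact ⟨a, by omega, h2, h3⟩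
    · refine ⟨b + 1, le_rfl, by omega, ?_⟩
      rw [Nat.choose_succ_succ' (b + 1) 1, Nat.choose_one_right] at h
      have h' : X < b + 1 + (b + 1).choose 2 := h
      omega

lemma exists_parts {E L b s : ℕ} (hE : E < (b + 1).choose 2) (hb : b ≤ (s + 1).choose 2)
    (hL : b + 3 * s ≤ L) : ∃ P : Multiset ℕ, P.sum = L ∧
      (P.map (fun x => x.choose 2)).sum = E ∧ Multiset.card P ≤ L := by
  obtain ⟨a, ha, ha1, ha2⟩ := greedy E b hE
  obtain ⟨c, hc⟩ : ∃ c, E = a.choose 2 + c := ⟨E - a.choose 2, by omega⟩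
  have hca : c < a := by omega
  obtain ⟨a', ha', ha1', ha2'⟩ := greedy c s (by omega)
  obtain ⟨c', hc'⟩ : ∃ c', c = a'.choose 2 + c' := ⟨c - a'.choose 2, by omega⟩
  have hca' : c' < a' := by omega
  refine ⟨{a} + {a'} + Multiset.replicate c' 2 + Multiset.replicate (L - a - a' - 2 * c') 1,
    ?_, ?_, ?_⟩
  · simp only [Multiset.sum_add, Multiset.sum_singleton, Multiset.sum_replicate, smul_eq_mul]
    omega
  · simp only [Multiset.map_add, Multiset.sum_add, Multiset.map_singleton, Multiset.sum_singleton,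
      Multiset.map_replicate, Multiset.sum_replicate, smul_eq_mul]
    simp
    omega
  · simp only [Multiset.card_add, Multiset.card_singleton, Multiset.card_replicate]
    omega

end Pool.Agent.H77.F1
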